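import Mathlib
import Pool.Agent.T6.H3.SunThree

/-!
# MP_fe1d70_nt, Q2: Sun's determinant `E_p` for the primes `p ≡ 3 (mod 4)`

For every prime `p ≡ 3 (mod 4)`, `p > 3`, there is an integer `q`, depending only on `p`, such that
`(-1)^((h+1)/2) E_p = p^((p-3)/4) (n y - 1 + (2 - (2/p)) h (w + x) - (2/p) (16 q / p) w x)`,
where `n = (p-1)/2` and `h` is the class number of `ℚ(√-p)`.  The identity is stated for all values of
`x`, `y`, `w` in an arbitrary commutative `ℚ`-algebra, in particular for the indeterminates of `ℚ[x, y, w]`.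

Proof.  Let `B` be the matrix `(j+k/p) + (j-k/p)` and let `χ` be the vector `(j/p)`.  Then `B 1 = -χ`,
`χᵀ B = -1ᵀ` and `B Bᵀ = p - 2 χ χᵀ`, so that `E_p det B` is `p^n` times a determinant of order two.  The
determinant of `B` is known from the library (its square is a power of `p`, and it is known modulo `4`), and so is
the class number formula.  The coefficient of `w x` is, up to a power of `p`, `S² + n (2 u - S²)`, where
`S = ∑_{i ≤ n} (i/p)` and `u = ∑_{i + j ≤ n} (i j/p)`, and it is divisible by `16`: the products of the symbols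
`(i j/p)` over `i < j`, `i + j ∈ {2 e + 2, 2 e + 3}` are equal to `(2/p)`, which gives `u` modulo `8`.
-/

set_option autoImplicit false

namespace Pool.Agent.Results.MP_fe1d70_nt.SunThreeModFour

open Finset Matrix Pool.Agent.R945.LD NumberField Module
open Pool.Agent.T6.H3.SunThree (A u f sixteen sum_chiB dbl f_pm f_zero)

/-- The determinant `E_p` of order `n = (p-1)/2` with the entries
`x + (j+k/p) + (j-k/p) + (j/p) y + (jk/p) w`, `1 ≤ j, k ≤ n`, at elements `x`, `y`, `w` of a commutative ring. -/
noncomputable def E (p : ℕ) [Fact p.Prime] {R : Type} [CommRing R] (x y w : R) : R :=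
  Matrix.det (Matrix.of fun j k : Fin ((p - 1) / 2) =>
    x + (legendreSym p (((j : ℤ) + 1) + ((k : ℤ) + 1)) : R)
      + (legendreSym p (((j : ℤ) + 1) - ((k : ℤ) + 1)) : R)
      + (legendreSym p ((j : ℤ) + 1) : R) * y
      + (legendreSym p (((j : ℤ) + 1) * ((k : ℤ) + 1)) : R) * w)

lemma half_sum (p : ℕ) [Fact p.Prime] (h5 : 5 ≤ p) (h3 : p % 4 = 3) (m : ℕ) (hm : p = 2 * m + 1)
    (K : Type) [Field K] [NumberField K] (h2 : finrank ℚ K = 2) (β : K) (hβ : β ^ 2 = -(p : K)) :
    ∑ j, xv p m ℤ j = (2 - q p 2) * (classNumber K : ℤ) := by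
  have h1 := Pool.Agent.R441.CN.classNumber_three h5 h3 K h2 β hβ
  have h4 := Pool.Agent.R343.CFP.S_T p h3
  have h6 := Pool.Agent.R343.CFP.S_range p m hm (by omega)
  have h7 : ∑ j, xv p m ℤ j = Pool.Agent.R343.CFP.S p := by
    rw [h6, ← Fin.sum_univ_eq_sum_range (fun s => jacobiSym ((s + 1 : ℕ) : ℤ) p)]
    apply Finset.sum_congr rfl
    intro j _
    rw [← jacobiSym.legendreSym.to_jacobiSym]
    simp only [xv, R945.LD.J, Int.cast_id]
    unfold legendreSym
    push_cast
    rfl
  have h8 : jacobiSym 2 p = q p 2 := by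
    rw [← jacobiSym.legendreSym.to_jacobiSym]
    unfold legendreSym
    push_cast
    rfl
  rw [h7]
  have hp0 : (p : ℤ) ≠ 0 := by omega
  apply mul_left_cancel₀ hp0
  rw [h4, h8]
  linear_combination (-(2 - q p 2)) * h1

lemma xv_A (p : ℕ) [Fact p.Prime] (m : ℕ) : ∑ j, xv p m ℤ j = A p m := by
  unfold A
  rw [sum_range_succ', f_zero, add_zero, ← Fin.sum_univ_eq_sum_range (fun s => f p (s + 1))]
  apply Finset.sum_congr rfl
  intro j _
  rw [Pool.Agent.T6.H3.SunThree.f_J]
  rfl

/-- the determinant in terms of the determinant of `B` -/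
theorem det_E (p : ℕ) [Fact p.Prime] (h3 : p % 4 = 3) (n : ℕ) (hn : p = 2 * n + 1)
    {R : Type} [CommRing R] (P ip x y w : R) (hP : P = (p : R)) (hip : P * ip = 1) :
    (Matrix.of fun j k : Fin n => x + Bm p n R j k + xv p n R j * y
      + xv p n R j * xv p n R k * w).det * ((Bm p n ℤ).det : R) * P =
    P ^ n * ((1 - n * y - (A p n : R) * (x + w)) +
      ip * (x * w * (((A p n ^ 2 + n * (2 * u p n - A p n ^ 2) : ℤ)) : R))) := by
  set v : Fin n → R := fun k => ∑ l, Bm p n R k l * xv p n R l with hv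
  have hB1 : ∀ j : Fin n, ∑ k, Bm p n R j k = - xv p n R j := by
    intro j
    have := congrArg (Int.cast : ℤ → R) (sum_B hn (R945.LD.J p j))
    simp only [Bm, Matrix.of_apply, xv]
    push_cast at this ⊢
    exact this
  have hBB : ∀ j k : Fin n, ∑ l, Bm p n R j l * Bm p n R k l =
      (if j = k then P else 0) - 2 * xv p n R j * xv p n R k := by
    intro j k
    have := congrArg (Int.cast : ℤ → R) (sum_BBt h3 hn j k)
    simp only [Bm, Matrix.of_apply, xv]
    rw [hP]
    push_cast at this ⊢
    exact this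
  have hqq : ∑ k : Fin n, xv p n R k * xv p n R k = n := by
    rw [Finset.sum_congr rfl (fun k _ => xv_sq hn k)]
    simp
  have hH : ∑ k : Fin n, xv p n R k = (A p n : R) := by
    rw [← xv_A]
    simp [xv]
  have hvq : ∑ k : Fin n, xv p n R k * v k = - (A p n : R) := by
    have e1 : ∑ k : Fin n, xv p n R k * v k =
        ∑ l : Fin n, (∑ k : Fin n, xv p n R k * Bm p n R k l) * xv p n R l := by
      simp only [hv, Finset.mul_sum, Finset.sum_mul]
      rw [Finset.sum_comm]
      apply Finset.sum_congr rfl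
      intro l _
      apply Finset.sum_congr rfl
      intro k _
      ring
    have e2 : ∀ l : Fin n, ∑ k : Fin n, xv p n R k * Bm p n R k l = -1 := by
      intro l
      have := congrArg (Int.cast : ℤ → R) (sum_chiB h3 hn l)
      simp only [Bm, Matrix.of_apply, xv]
      push_cast at this ⊢
      exact this
    rw [e1, Finset.sum_congr rfl (fun l _ => by rw [e2 l]), ← hH, ← Finset.sum_neg_distrib]
    apply Finset.sum_congr rfl
    intro l _
    ring
  have hG : ∑ k : Fin n, v k = ((2 * u p n - A p n ^ 2 : ℤ) : R) := by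
    rw [← dbl h3 hn]
    simp only [hv, Bm, Matrix.of_apply, xv]
    push_cast
    rfl
  set U : Matrix (Fin n) (Fin 2) R := Matrix.of fun j i =>
    if i = 0 then ip * (-(2 + y) * xv p n R j - x) else ip * (w * xv p n R j) with hU
  set V : Matrix (Fin 2) (Fin n) R := Matrix.of fun i k =>
    if i = 0 then xv p n R k else v k with hV
  have hM : (Matrix.of fun j k : Fin n => x + Bm p n R j k + xv p n R j * y
      + xv p n R j * xv p n R k * w) * (Bm p n R)ᵀ = P • (1 + U * V) := by
    ext j k
    rw [Matrix.mul_apply, Matrix.smul_apply, Matrix.add_apply, Matrix.mul_apply, Fin.sum_univ_two,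
      Matrix.one_apply]
    simp only [Matrix.of_apply, Matrix.transpose_apply, hU, hV, if_true, smul_eq_mul, one_ne_zero,
      if_false]
    have e : ∀ l : Fin n, (x + Bm p n R j l + xv p n R j * y + xv p n R j * xv p n R l * w) *
        Bm p n R k l = (x + xv p n R j * y) * Bm p n R k l + Bm p n R j l * Bm p n R k l +
        (w * xv p n R j) * (Bm p n R k l * xv p n R l) := by
      intro l; ring
    rw [Finset.sum_congr rfl (fun l _ => e l), Finset.sum_add_distrib, Finset.sum_add_distrib,
      ← Finset.mul_sum, ← Finset.mul_sum, hB1, hBB]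
    have ev : ∑ l, Bm p n R k l * xv p n R l = v k := rfl
    rw [ev]
    by_cases hjk : j = k
    · simp only [if_pos hjk]
      linear_combination (-((-(2 + y) * xv p n R j - x) * xv p n R k + w * xv p n R j * v k)) * hip
    · simp only [if_neg hjk]
      linear_combination (-((-(2 + y) * xv p n R j - x) * xv p n R k + w * xv p n R j * v k)) * hip
  have hWV : ((1 : Matrix (Fin 2) (Fin 2) R) + V * U) =
      !![1 + ip * (-(2 + y) * n - x * (A p n : R)), ip * (w * n);
        ip * ((2 + y) * (A p n : R) - x * ((2 * u p n - A p n ^ 2 : ℤ) : R)),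
        1 - ip * (w * (A p n : R))] := by
    ext i j
    fin_cases i <;> fin_cases j <;>
      simp only [Matrix.add_apply, Matrix.mul_apply, hV, hU, Matrix.of_apply, Fin.zero_eta, Fin.isValue,
        Matrix.cons_val', Matrix.cons_val_zero, Matrix.cons_val_one, if_true, Fin.mk_one,
        Matrix.cons_val_fin_one]
    · have e : ∀ k : Fin n, xv p n R k * (ip * (-(2 + y) * xv p n R k - x)) =
          ip * (-(2 + y)) * (xv p n R k * xv p n R k) - ip * x * xv p n R k := by intro k; ring
      rw [Finset.sum_congr rfl (fun k _ => e k), Finset.sum_sub_distrib, ← Finset.mul_sum,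
        ← Finset.mul_sum, hqq, hH]
      simp
      ring
    · have e : ∀ k : Fin n, xv p n R k * (if (1 : Fin 2) = 0 then ip * (-(2 + y) * xv p n R k - x)
          else ip * (w * xv p n R k)) = ip * w * (xv p n R k * xv p n R k) := by
        intro k; simp; ring
      rw [Finset.sum_congr rfl (fun k _ => e k), ← Finset.mul_sum, hqq]
      simp
      ring
    · have e : ∀ k : Fin n, (if (1 : Fin 2) = 0 then xv p n R k else v k) *
          (ip * (-(2 + y) * xv p n R k - x)) =
          ip * (-(2 + y)) * (xv p n R k * v k) - ip * x * v k := by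
        intro k; simp; ring
      rw [Finset.sum_congr rfl (fun k _ => e k), Finset.sum_sub_distrib, ← Finset.mul_sum,
        ← Finset.mul_sum, hvq, hG]
      simp
      ring
    · have e : ∀ k : Fin n, (if (1 : Fin 2) = 0 then xv p n R k else v k) *
          (if (1 : Fin 2) = 0 then ip * (-(2 + y) * xv p n R k - x) else ip * (w * xv p n R k)) =
          ip * w * (xv p n R k * v k) := by
        intro k; simp; ring
      rw [Finset.sum_congr rfl (fun k _ => e k), ← Finset.mul_sum, hvq]
      simp
      ring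
  have hdet := congrArg Matrix.det hM
  rw [Matrix.det_mul, Matrix.det_transpose, Matrix.det_smul, Matrix.det_one_add_mul_comm, hWV,
    Matrix.det_fin_two_of, Fintype.card_fin] at hdet
  have hBdet : ((Bm p n ℤ).det : R) = (Bm p n R).det := by
    have hmap : (Bm p n ℤ).map (Int.castRingHom R) = Bm p n R := by
      ext i j; simp [Bm]
    have h6 := (Int.castRingHom R).map_det (Bm p n ℤ)
    rw [RingHom.mapMatrix_apply, hmap] at h6
    rw [← h6]; rfl
  rw [hBdet, hdet]
  have hPn : P = 2 * (n : R) + 1 := by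
    rw [hP]
    have : ((p : ℕ) : R) = ((2 * n + 1 : ℕ) : R) := by rw [← hn]
    rw [this]; push_cast; ring
  push_cast
  have hn' : (n : R) * 2 = P - 1 := by rw [hPn]; ring
  have hipn : ip * (2 * (n : R)) = 1 - ip := by
    have : ip * (2 * (n : R)) = ip * P - ip := by rw [hPn]; ring
    rw [this, mul_comm ip P, hip]
  have key : ((1 + ip * (-(2 + y) * (n : R) - x * (A p n : R))) * (1 - ip * (w * (A p n : R))) -
      ip * (w * n) * (ip * ((2 + y) * (A p n : R) - x * (2 * (u p n : R) - (A p n : R) ^ 2)))) * P =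
      (1 - n * y - (A p n : R) * (x + w)) +
      ip * (x * w * ((A p n : R) ^ 2 + n * (2 * (u p n : R) - (A p n : R) ^ 2))) := by
    have e1 : (1 + ip * (-(2 + y) * (n : R) - x * (A p n : R))) = ip * (1 - n * y - x * (A p n : R)) := by
      linear_combination -hipn
    rw [e1]
    have e2 : (ip * (1 - n * y - x * (A p n : R)) * (1 - ip * (w * (A p n : R))) -
      ip * (w * n) * (ip * ((2 + y) * (A p n : R) - x * (2 * (u p n : R) - (A p n : R) ^ 2)))) =
      ip * ((1 - n * y - x * (A p n : R)) - w * (A p n : R) * (ip + ip * (2 * n)) +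
        ip * (x * w * ((A p n : R) ^ 2 + n * (2 * (u p n : R) - (A p n : R) ^ 2)))) := by ring
    rw [e2, hipn]
    linear_combination ((1 - n * y - x * (A p n : R)) - w * (A p n : R) * (ip + (1 - ip)) +
        ip * (x * w * ((A p n : R) ^ 2 + n * (2 * (u p n : R) - (A p n : R) ^ 2)))) * hip
  linear_combination P ^ n * key

/-- **Sun's identity for `E_p`, `p ≡ 3 (mod 4)`.** -/
theorem result (p : ℕ) [Fact p.Prime] (h4 : p % 4 = 3) (h3 : 3 < p) :
    ∃ q : ℤ, ∀ (K : Type) [Field K] [NumberField K], finrank ℚ K = 2 →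
      (∃ β : K, β ^ 2 = -(p : K)) →
      ∀ (R : Type) [CommRing R] [Algebra ℚ R] (x y w : R),
        (-1) ^ ((classNumber K + 1) / 2) * E p x y w =
          (p : R) ^ ((p - 3) / 4) * ((((p - 1) / 2 : ℕ) : R) * y - 1
            + (2 - (legendreSym p 2 : R)) * (classNumber K : R) * (w + x)
            - (legendreSym p 2 : R) * algebraMap ℚ R (16 * q / p) * w * x) := by
  have hp : p.Prime := Fact.out
  obtain ⟨n, hn⟩ : ∃ n, p = 2 * n + 1 := ⟨p / 2, by omega⟩
  obtain ⟨k, hk⟩ : ∃ k, n = 2 * k + 1 := ⟨n / 2, by omega⟩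
  have hk4 : (p - 3) / 4 = k := by omega
  have hn2 : (p - 1) / 2 = n := by omega
  obtain ⟨c, hc⟩ := sixteen h4 hn
  have hL : legendreSym p 2 = q p 2 := by unfold legendreSym; push_cast; rfl
  have hq2 : q p 2 * q p 2 = 1 := q_sq (two_ne (by omega))
  refine ⟨q p 2 * c, ?_⟩
  intro K _ _ hfr hβ R _ _ x y w
  obtain ⟨β, hβ⟩ := hβ
  have hS := half_sum p (by omega) h4 n hn K hfr β hβ
  have hdetB := det_B_three h4 hn (by omega) (classNumber K) hS
  rw [xv_A] at hS
  -- the parity of the class number
  have hodd : (2 : ℤ) ∣ A p n - 1 := by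
    have h1 : A p n = ∑ i ∈ range n, f p (i + 1) := by
      unfold A; rw [sum_range_succ', f_zero, add_zero]
    have h2 : A p n - n = ∑ i ∈ range n, (f p (i + 1) - 1) := by
      rw [sum_sub_distrib, h1]; simp
    have h4 : (2 : ℤ) ∣ A p n - n := by
      rw [h2]
      apply dvd_sum
      intro i hi
      rw [mem_range] at hi
      rcases f_pm (p := p) (a := i + 1) (by omega) (by omega) with h | h <;> rw [h] <;> norm_num
    omega
  have hh : classNumber K % 2 = 1 := by
    rw [hS] at hodd
    rcases mul_self_eq_one_iff.mp hq2 with h | h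
    · rw [h] at hodd; omega
    · rw [h] at hodd; omega
  obtain ⟨t, ht⟩ : ∃ t, classNumber K = 2 * t + 1 := ⟨classNumber K / 2, by omega⟩
  have ht1 : (classNumber K - 1) / 2 = t := by omega
  have ht2 : (classNumber K + 1) / 2 = t + 1 := by omega
  rw [ht1, hk4] at hdetB
  have hpQ : (p : ℚ) ≠ 0 := by exact_mod_cast hp.ne_zero
  set P : R := (p : R) with hP
  set ip : R := algebraMap ℚ R (1 / p) with hipd
  have hip : P * ip = 1 := by
    have e : P = algebraMap ℚ R (p : ℚ) := by rw [hP]; simp
    rw [e, hipd, ← map_mul, mul_one_div_cancel hpQ, map_one]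
  have hmain := det_E p h4 n hn P ip x y w hP hip
  have hE : E p x y w = (Matrix.of fun j k : Fin n => x + Bm p n R j k + xv p n R j * y
      + xv p n R j * xv p n R k * w).det := by
    unfold E
    rw [hn2]
    congr 1
    ext j k
    simp only [Matrix.of_apply, Bm, xv, R945.LD.J]
    unfold legendreSym
    push_cast
    rw [map_mul]
    push_cast
    ring
  rw [← hE, hdetB, hc] at hmain
  have halg : (legendreSym p 2 : R) * algebraMap ℚ R (16 * ((q p 2 * c : ℤ) : ℚ) / p) =
      ip * ((16 * c : ℤ) : R) := by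
    rw [hL]
    have e1 : (16 * ((q p 2 * c : ℤ) : ℚ) / p) = (1 / p) * (((16 * (q p 2 * c) : ℤ)) : ℚ) := by
      push_cast; ring
    rw [e1, map_mul, ← hipd]
    have e2 : algebraMap ℚ R (((16 * (q p 2 * c) : ℤ)) : ℚ) = ((16 * (q p 2 * c) : ℤ) : R) :=
      map_intCast _ _
    rw [e2]
    have e3 : ((q p 2 : ℤ) : R) * ((q p 2 : ℤ) : R) = 1 := by rw [← Int.cast_mul, hq2, Int.cast_one]
    push_cast
    linear_combination (16 * ip * (c : R)) * e3
  rw [ht2, hk4, hn2, halg, hL]
  have hA : (A p n : R) = (2 - ((q p 2 : ℤ) : R)) * (classNumber K : R) := by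
    rw [hS]; push_cast; ring
  rw [← hA]
  have hu : IsUnit (P ^ (k + 1)) := (IsUnit.of_mul_eq_one ip hip).pow _
  apply hu.mul_left_cancel
  have hs : ((-1 : R) ^ t) * (-1) ^ t = 1 := by rw [← mul_pow]; simp
  rw [hk] at hmain
  push_cast at hmain ⊢
  have e5 : P ^ (2 * k + 1) = P ^ (k + 1) * P ^ k := by rw [← pow_add]; congr 1; ring
  rw [e5] at hmain
  have e6 : P ^ (k + 1) * ((-1) ^ (t + 1) * E p x y w) =
      -(E p x y w * ((-1) ^ t * P ^ k) * P) := by
    rw [pow_succ, pow_succ]; ring
  rw [e6, hmain, hk]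
  push_cast
  ring

end Pool.Agent.Results.MP_fe1d70_nt.SunThreeModFour
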